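import Pool.Agent.H88.MCR.Stmts2

/-!
Row B6G of the board `mcr`: a drawing of `K_6` in which the 6-cycle is a thrackle.
-/

namespace Pool.MCR

namespace B6G

set_option synthInstance.maxSize 100000
set_option maxRecDepth 100000

instance decBtw (a b c : ℕ) : Decidable (Btw a b c) := by unfold Btw; infer_instance

instance decOut (a b c : ℕ) : Decidable (Out a b c) := by unfold Out; infer_instance

instance decInter (a b c d : ℕ) : Decidable (Inter a b c d) := by unfold Inter; infer_instance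

instance decCross (A B : Arc ℕ) : Decidable (Cross A B) := by unfold Cross; infer_instance

instance decNC (α β : List (Arc ℕ)) : Decidable (NC α β) := by unfold NC; infer_instance

instance decEX (α β : List (Arc ℕ)) : Decidable (EX α β) := by unfold EX; infer_instance

instance decAM (α β : List (Arc ℕ)) : Decidable (AM α β) := by unfold AM; infer_instance

instance decCyc (m x y : ℕ) : Decidable (cycT m x y) := by unfold cycT; infer_instance

theorem pos_inj : ∀ x < 6, ∀ y < 6, B6.pos x = B6.pos y → x = y := by decide +kernel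

theorem notin : ∀ x < 6, ∀ y < 6, ∀ z < 6, x ≠ y → B6.pos z ∉ B6.E x y := by decide +kernel

theorem nodup : ∀ x < 6, ∀ y < 6, x ≠ y → (B6.E x y).Nodup := by decide +kernel

theorem disj : ∀ x < 6, ∀ y < 6, ∀ z < 6, ∀ t < 6, x ≠ y → z ≠ t → ∀ c ∈ B6.E x y,
    c ∈ B6.E z t → (x = z ∧ y = t) ∨ (x = t ∧ y = z) := by decide +kernel

theorem symE : ∀ x < 6, ∀ y < 6, x ≠ y → ∀ c ∈ B6.E x y, c ∈ B6.E y x := by decide +kernel

theorem symA : ∀ x < 6, ∀ y < 6, x ≠ y → ∀ A ∈ B6.A x y,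
    ((A.1, A.2.2, A.2.1) : Arc ℕ) ∈ B6.A y x := by decide +kernel

theorem adj : ∀ x < 6, ∀ y < 6, ∀ z < 6, x ≠ y → x ≠ z → y ≠ z →
    NC (B6.A x y) (B6.A x z) := by decide +kernel

theorem self : ∀ x < 6, ∀ y < 6, x ≠ y → NC (B6.A x y) (B6.A x y) := by decide +kernel

theorem two : ∀ x < 6, ∀ y < 6, ∀ z < 6, ∀ t < 6, x ≠ y → z ≠ t → x ≠ z → x ≠ t → y ≠ z →
    y ≠ t → AM (B6.A x y) (B6.A z t) := by decide +kernel

theorem thr : ∀ x < 6, ∀ y < 6, (cycT 6 x y ∨ cycT 6 y x) → ∀ z < 6, ∀ t < 6,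
    (cycT 6 z t ∨ cycT 6 t z) → x ≠ z → x ≠ t → y ≠ z → y ≠ t →
    EX (B6.A x y) (B6.A z t) := by decide +kernel

end B6G

theorem b6g_thm : B6G_S :=
  ⟨⟨B6G.pos_inj, B6G.notin, B6G.nodup,
    fun x hx y hy z hz t ht h1 h2 c hc hc' => B6G.disj x hx y hy z hz t ht h1 h2 c hc hc',
    fun x hx y hy h c hc => B6G.symE x hx y hy h c hc,
    fun x hx y hy h s a b hA => B6G.symA x hx y hy h (s, a, b) hA,
    B6G.adj, B6G.self, B6G.two⟩,
    fun x hx y hy z hz t ht _ _ h3 h4 h5 h6 h7 h8 =>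
      B6G.thr x hx y hy h7 z hz t ht h8 h3 h4 h5 h6⟩

end Pool.MCR
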