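import Pool.Agent.H88.MCR.Stmts

/-!
Row PRO of the board `mcr`: two interleaving arcs cross properly.
-/

namespace Pool.MCR

namespace PRO

theorem isClosed_arcSet (s : Bool) (a b : ℝ) : IsClosed (arcSet s a b) := by
  have h1 : IsClosed {p : ℝ × ℝ | 0 ≤ (p.1 - a) * (b - p.1)} :=
    isClosed_le continuous_const (by fun_prop)
  have h2 : IsClosed {p : ℝ × ℝ | p.2 = (if s = true then 1 else -1) *
      ((p.1 - a) * (b - p.1))} := isClosed_eq (by fun_prop) (by fun_prop)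
  exact h1.inter h2

/-- the complement of the other arcs of a list -/
theorem isOpen_off (α : List (Arc ℝ)) (A : Arc ℝ) :
    IsOpen {q : ℝ × ℝ | ∀ A' ∈ α, A' ≠ A → q ∉ arcSet A'.1 A'.2.1 A'.2.2} := by
  have hf : {A' : Arc ℝ | A' ∈ α ∧ A' ≠ A}.Finite :=
    (List.finite_toSet α).subset fun x hx => hx.1
  have h := hf.isClosed_biUnion (f := fun A' : Arc ℝ => arcSet A'.1 A'.2.1 A'.2.2)
    fun A' _ => isClosed_arcSet _ _ _
  have he : {q : ℝ × ℝ | ∀ A' ∈ α, A' ≠ A → q ∉ arcSet A'.1 A'.2.1 A'.2.2} =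
      (⋃ A' ∈ {A' : Arc ℝ | A' ∈ α ∧ A' ≠ A}, arcSet A'.1 A'.2.1 A'.2.2)ᶜ := by
    ext q
    constructor
    · intro hq hq'
      obtain ⟨A', hA', hq''⟩ := Set.mem_iUnion₂.1 hq'
      exact hq A' hA'.1 hA'.2 hq''
    · intro hq A' hA' hne hq'
      exact hq (Set.mem_iUnion₂.2 ⟨A', ⟨hA', hne⟩, hq'⟩)
  rw [he]
  exact h.isOpen_compl

theorem mem_curve_iff (α : List (Arc ℝ)) (A : Arc ℝ) (hA : A ∈ α) (q : ℝ × ℝ)
    (hq : ∀ A' ∈ α, A' ≠ A → q ∉ arcSet A'.1 A'.2.1 A'.2.2) :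
    q ∈ curve α ↔ q ∈ arcSet A.1 A.2.1 A.2.2 := by
  constructor
  · rintro ⟨A', hA', h⟩
    by_cases hne : A' = A
    · rw [← hne]
      exact h
    · exact absurd h (hq A' hA' hne)
  · intro h
    exact ⟨A, hA, h⟩

/-- the homeomorphism -/
noncomputable def homeo (f : ℝ → ℝ) (g : ℝ → ℝ) (m k : ℝ) (hm : m ≠ 0) (hf : Continuous f)
    (hg : Continuous g) (h : ∀ x, g x - f x = m * x + k) : (ℝ × ℝ) ≃ₜ (ℝ × ℝ) where
  toFun q := (q.2 - g q.1, q.2 - f q.1)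
  invFun w := ((w.2 - w.1 - k) / m, w.2 + f ((w.2 - w.1 - k) / m))
  left_inv q := by
    have h1 := h q.1
    have h2 : (q.2 - f q.1 - (q.2 - g q.1) - k) / m = q.1 := by
      rw [div_eq_iff hm]
      linear_combination h1
    refine Prod.ext ?_ ?_
    · exact h2
    · show q.2 - f q.1 + f ((q.2 - f q.1 - (q.2 - g q.1) - k) / m) = q.2
      rw [h2]
      ring
  right_inv w := by
    have h1 := h ((w.2 - w.1 - k) / m)
    have h2 : m * ((w.2 - w.1 - k) / m) = w.2 - w.1 - k := by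
      field_simp
    rw [h2] at h1
    refine Prod.ext ?_ ?_
    · show w.2 + f ((w.2 - w.1 - k) / m) - g ((w.2 - w.1 - k) / m) = w.1
      linear_combination -h1
    · show w.2 + f ((w.2 - w.1 - k) / m) - f ((w.2 - w.1 - k) / m) = w.2
      ring
  continuous_toFun := by
    have hf' : Continuous fun q : ℝ × ℝ => f q.1 := hf.comp continuous_fst
    have hg' : Continuous fun q : ℝ × ℝ => g q.1 := hg.comp continuous_fst
    exact (continuous_snd.sub hg').prodMk (continuous_snd.sub hf')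
  continuous_invFun := by
    have h1 : Continuous fun w : ℝ × ℝ => (w.2 - w.1 - k) / m := by fun_prop
    exact h1.prodMk (continuous_snd.add (hf.comp h1))

theorem inter_sum (a b c d : ℝ) (h : Inter a b c d) : c + d - a - b ≠ 0 := by
  intro h0
  rcases h with ⟨h1, h2⟩ | ⟨h1, h2⟩ <;> rcases h1 with ⟨h3, h4⟩ | ⟨h3, h4⟩ <;>
    rcases h2 with ⟨h5, h6⟩ | ⟨h5, h6⟩ <;> linarith

theorem inter_ne (a b c d : ℝ) (h : Inter a b c d) :
    a ≠ c ∧ a ≠ d ∧ b ≠ c ∧ b ≠ d := by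
  rcases h with ⟨h1, h2⟩ | ⟨h1, h2⟩ <;> rcases h1 with ⟨h3, h4⟩ | ⟨h3, h4⟩ <;>
    rcases h2 with ⟨h5, h6⟩ | ⟨h5, h6⟩ <;>
    exact ⟨by rintro rfl; linarith, by rintro rfl; linarith, by rintro rfl; linarith,
      by rintro rfl; linarith⟩

theorem mem_arcSet_iff (s : Bool) (a b σ : ℝ) (hσ : σ = if s = true then 1 else -1)
    (q : ℝ × ℝ) (hq : 0 < σ * q.2) :
    q ∈ arcSet s a b ↔ q.2 - σ * ((q.1 - a) * (b - q.1)) = 0 := by
  have hσ2 : σ * σ = 1 := by rw [hσ]; split_ifs <;> norm_num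
  constructor
  · rintro ⟨-, h2⟩
    rw [← hσ] at h2
    rw [sub_eq_zero]
    exact h2
  · intro h
    rw [sub_eq_zero] at h
    refine ⟨?_, by rw [← hσ]; exact h⟩
    have h3 : (q.1 - a) * (b - q.1) = σ * q.2 := by
      rw [h, ← mul_assoc, hσ2, one_mul]
    rw [h3]
    exact hq.le

end PRO

open PRO in
theorem pro_thm : PRO_S := by
  rintro α β ⟨s, a, b⟩ ⟨s', c, d⟩ p hA hB ⟨hs, hI⟩ hpA hpB hα hβ
  change s = s' at hs
  change Inter a b c d at hI
  change p ∈ arcSet s a b at hpA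
  change p ∈ arcSet s' c d at hpB
  subst hs
  obtain ⟨σ, hσ⟩ : ∃ σ : ℝ, σ = if s = true then 1 else -1 := ⟨_, rfl⟩
  have hσ2 : σ * σ = 1 := by rw [hσ]; split_ifs <;> norm_num
  have hσ0 : σ ≠ 0 := by
    rintro rfl
    norm_num at hσ2
  have hm : σ * (c + d - a - b) ≠ 0 := mul_ne_zero hσ0 (inter_sum a b c d hI)
  obtain ⟨n1, n2, n3, n4⟩ := inter_ne a b c d hI
  have hp2 : p.2 = σ * ((p.1 - a) * (b - p.1)) := by
    rw [hσ]
    exact hpA.2
  have hp2' : p.2 = σ * ((p.1 - c) * (d - p.1)) := by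
    rw [hσ]
    exact hpB.2
  have e1 : σ * p.2 = (p.1 - a) * (b - p.1) := by
    rw [hp2, ← mul_assoc, hσ2, one_mul]
  have e2 : σ * p.2 = (p.1 - c) * (d - p.1) := by
    rw [hp2', ← mul_assoc, hσ2, one_mul]
  have hpos : 0 < σ * p.2 := by
    refine lt_of_le_of_ne (by rw [e1]; exact hpA.1) ?_
    intro h0
    rw [e1] at h0
    have e3 : (p.1 - c) * (d - p.1) = 0 := by rw [← e2, e1, ← h0]
    rcases mul_eq_zero.1 h0.symm with h | h <;> rcases mul_eq_zero.1 e3 with h' | h'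
    · exact n1 (by linarith)
    · exact n2 (by linarith)
    · exact n3 (by linarith)
    · exact n4 (by linarith)
  let f : ℝ → ℝ := fun x => σ * ((x - a) * (b - x))
  let g : ℝ → ℝ := fun x => σ * ((x - c) * (d - x))
  have hf : Continuous f := by fun_prop
  have hg : Continuous g := by fun_prop
  refine ⟨homeo f g (σ * (c + d - a - b)) (σ * (a * b - c * d)) hm hf hg ?_,
    {q : ℝ × ℝ | 0 < σ * q.2} ∩
      ({q : ℝ × ℝ | ∀ A' ∈ α, A' ≠ (s, a, b) → q ∉ arcSet A'.1 A'.2.1 A'.2.2} ∩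
      {q : ℝ × ℝ | ∀ B' ∈ β, B' ≠ (s, c, d) → q ∉ arcSet B'.1 B'.2.1 B'.2.2}), ?_, ?_, ?_, ?_⟩
  · intro x
    show σ * ((x - c) * (d - x)) - σ * ((x - a) * (b - x)) =
      σ * (c + d - a - b) * x + σ * (a * b - c * d)
    ring
  · exact (isOpen_lt continuous_const (by fun_prop)).inter
      ((isOpen_off α _).inter (isOpen_off β _))
  · exact ⟨hpos, fun A' hA' hne h => hne (hα A' hA' h), fun B' hB' hne h => hne (hβ B' hB' h)⟩
  · refine Prod.ext ?_ ?_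
    · show p.2 - σ * ((p.1 - c) * (d - p.1)) = 0
      rw [sub_eq_zero]
      exact hp2'
    · show p.2 - σ * ((p.1 - a) * (b - p.1)) = 0
      rw [sub_eq_zero]
      exact hp2
  · rintro q ⟨hq1, hq2, hq3⟩
    refine ⟨?_, ?_⟩
    · rw [mem_curve_iff α _ hA q hq2]
      exact mem_arcSet_iff s a b σ hσ q hq1
    · rw [mem_curve_iff β _ hB q hq3]
      exact mem_arcSet_iff s c d σ hσ q hq1

end Pool.MCR
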